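import Mathlib

set_option autoImplicit false

/-! # The `2`-complexity of `2^m (2^u + 2)^r`: counterexamples -/

namespace Pool.Agent.Results.MP_5f25aa_nt.FewerTwos

/-- arithmetic expressions built from copies of `2` with `+` and `*` -/
inductive Expr : Type
  | two : Expr
  | add : Expr → Expr → Expr
  | mul : Expr → Expr → Expr

/-- the value of an expression -/
def Expr.eval : Expr → ℕ
  | .two => 2
  | .add x y => x.eval + y.eval
  | .mul x y => x.eval * y.eval

/-- the number of copies of `2` in an expression -/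
def Expr.size : Expr → ℕ
  | .two => 1
  | .add x y => x.size + y.size
  | .mul x y => x.size + y.size

/-- the `2`-complexity of `n`: the least number of copies of `2` in an expression with value `n`
(for a positive even `n` such expressions exist) -/
noncomputable def complexity (n : ℕ) : ℕ := sInf {c | ∃ x : Expr, x.eval = n ∧ x.size = c}

lemma complexity_le (x : Expr) : complexity x.eval ≤ x.size :=
  Nat.sInf_le ⟨x, rfl, rfl⟩

/-- products of `m` copies of `2` and an expression -/
def twos (x : Expr) : ℕ → Expr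
  | 0 => x
  | (m + 1) => .mul .two (twos x m)

lemma twos_eval (x : Expr) (m : ℕ) : (twos x m).eval = 2 ^ m * x.eval := by
  induction m with
  | zero => simp [twos]
  | succ m ih => rw [twos, Expr.eval, ih, pow_succ]; simp only [Expr.eval]; ring

lemma twos_size (x : Expr) (m : ℕ) : (twos x m).size = m + x.size := by
  induction m with
  | zero => simp [twos]
  | succ m ih => rw [twos, Expr.size, ih]; simp only [Expr.size]; ring

/-- the product of an expression and `j` copies of another one -/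
def pows (x y : Expr) : ℕ → Expr
  | 0 => x
  | (j + 1) => .mul y (pows x y j)

lemma pows_eval (x y : Expr) (j : ℕ) : (pows x y j).eval = y.eval ^ j * x.eval := by
  induction j with
  | zero => simp [pows]
  | succ j ih => rw [pows, Expr.eval, ih, pow_succ]; ring

lemma pows_size (x y : Expr) (j : ℕ) : (pows x y j).size = y.size * j + x.size := by
  induction j with
  | zero => simp [pows]
  | succ j ih => rw [pows, Expr.size, ih]; ring

/-- `2^j` -/
def p2 (j : ℕ) : Expr := twos .two (j - 1)

/-- `18 = 2^4 + 2` -/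
def e18 : Expr := .add .two (p2 4)

/-- `10 = 2^3 + 2` -/
def e10 : Expr := .add .two (p2 3)

/-- `82 = 2 + 2^3 (2 + 2^3)` -/
def e82 : Expr := .add .two (twos (.add .two (p2 3)) 3)

/-- `32810 = 2 + 2^2 (2 + 2^2 (2 + 2^11))` -/
def e32810 : Expr := .add .two (twos (.add .two (twos (.add .two (p2 11)) 2)) 2)

/-- `18^8 = 2^7 (2 + 2^5 · 82 · 32810)` -/
def e18p8 : Expr := twos (.add .two (twos (.mul e82 e32810) 5)) 7

/-- `1042 = 2 + 2^3 (2 + 2^7)` -/
def e1042 : Expr := .add .two (twos (.add .two (p2 7)) 3)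

/-- `1562 = 2 + 2 · (2 + 2^2) (2 + 2^7)` -/
def e1562 : Expr := .add .two (.mul .two (.mul (.add .two (p2 2)) (.add .two (p2 7))))

/-- `10^10 = 2^9 (2 + 2 · (2 + 2^2) · 1042 · 1562)` -/
def e10p10 : Expr :=
  twos (.add .two (.mul .two (.mul (.add .two (p2 2)) (.mul e1042 e1562)))) 9

lemma e18p8_eval : e18p8.eval = (2 ^ 4 + 2) ^ 8 := by decide +kernel

lemma e18p8_size : e18p8.size = 39 := by decide +kernel

lemma e10p10_eval : e10p10.eval = (2 ^ 3 + 2) ^ 10 := by decide +kernel

lemma e10p10_size : e10p10.size = 39 := by decide +kernel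

lemma e18_eval : e18.eval = 2 ^ 4 + 2 := by decide +kernel

lemma e18_size : e18.size = 5 := by decide +kernel

lemma e10_eval : e10.eval = 2 ^ 3 + 2 := by decide +kernel

lemma e10_size : e10.size = 4 := by decide +kernel

/-- **The bound is not attained.** For `u = 4` and every `r ≥ 8`, and for `u = 3` and every
`r ≥ 10`, one has `‖2^m (2^u+2)^r‖_2 < m + (u+1) r` for all `m ≥ 0`; in particular
`‖18^8‖_2 ≤ 39` and `‖10^10‖_2 ≤ 39`. So the formula `‖2^m (2^u+2)^r‖_2 = m + (u+1) r` is not true
for all `m ≥ 0`, `u ≥ 2`, `r ≥ 1`. -/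
theorem result :
    (∃ x : Expr, x.eval = 18 ^ 8 ∧ x.size = 39) ∧ (∃ x : Expr, x.eval = 10 ^ 10 ∧ x.size = 39) ∧
    (complexity (18 ^ 8) ≤ 39 ∧ complexity (10 ^ 10) ≤ 39) ∧
    (∀ m r : ℕ, 8 ≤ r → complexity (2 ^ m * (2 ^ 4 + 2) ^ r) < m + (4 + 1) * r) ∧
    (∀ m r : ℕ, 10 ≤ r → complexity (2 ^ m * (2 ^ 3 + 2) ^ r) < m + (3 + 1) * r) ∧
    ¬ (∀ m u r : ℕ, 2 ≤ u → 1 ≤ r → complexity (2 ^ m * (2 ^ u + 2) ^ r) = m + (u + 1) * r) := by
  have h18 : ∀ m r : ℕ, 8 ≤ r → complexity (2 ^ m * (2 ^ 4 + 2) ^ r) < m + (4 + 1) * r := by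
    intro m r hr
    have h := complexity_le (twos (pows e18p8 e18 (r - 8)) m)
    rw [twos_eval, twos_size, pows_eval, pows_size, e18p8_eval, e18p8_size, e18_eval, e18_size,
      ← pow_add, show r - 8 + 8 = r by omega] at h
    omega
  have h10 : ∀ m r : ℕ, 10 ≤ r → complexity (2 ^ m * (2 ^ 3 + 2) ^ r) < m + (3 + 1) * r := by
    intro m r hr
    have h := complexity_le (twos (pows e10p10 e10 (r - 10)) m)
    rw [twos_eval, twos_size, pows_eval, pows_size, e10p10_eval, e10p10_size, e10_eval, e10_size,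
      ← pow_add, show r - 10 + 10 = r by omega] at h
    omega
  refine ⟨⟨e18p8, e18p8_eval, e18p8_size⟩, ⟨e10p10, e10p10_eval, e10p10_size⟩, ⟨?_, ?_⟩, h18, h10, ?_⟩
  · have h := complexity_le e18p8
    rw [e18p8_eval, e18p8_size] at h
    exact h
  · have h := complexity_le e10p10
    rw [e10p10_eval, e10p10_size] at h
    exact h
  · intro hall
    have h1 := hall 0 4 8 (by norm_num) (by norm_num)
    have h2 := h18 0 8 le_rfl
    omega

end Pool.Agent.Results.MP_5f25aa_nt.FewerTwos
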